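import Pool.Agent.helper80.HM.SpecA

/-!
# Row hm:AVO: half of the members of a spread family avoid a small set
-/

set_option autoImplicit false

namespace Pool.Agent.HM

open Finset Pool.Agent.helper33.Mod

/-- The bound for the members which contain one more vertex. -/
theorem AVO_one (hKSV : KSV_stmt) {M k : ℕ} (V T : Finset (Fin M)) (X : Finset (Finset (Fin M)))
    (hT : T ⊆ V) (hX : X ⊆ KS k V T) (hne : X.Nonempty) (v : Fin M) (hv : v ∈ V \ T)
    (hsp : ((Xt X (insert v T)).card : ℝ) * (KS k V T).card ≤
      2 * (X.card * (KS k V (insert v T)).card)) :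
    (Xt X (insert v T)).card * (V.card - T.card) ≤ 2 * (k * X.card) := by
  have h1 := hKSV (k := k) V T v hT (mem_sdiff.1 hv).1 (mem_sdiff.1 hv).2
  have hpos : 0 < (KS k V T).card := card_pos.2 (hne.mono hX)
  have h2 : (Xt X (insert v T)).card * (KS k V T).card ≤
      2 * (X.card * (KS k V (insert v T)).card) := by
    exact_mod_cast hsp
  refine Nat.le_of_mul_le_mul_left (c := (KS k V T).card) ?_ hpos
  calc (KS k V T).card * ((Xt X (insert v T)).card * (V.card - T.card))
      = ((Xt X (insert v T)).card * (KS k V T).card) * (V.card - T.card) := by ring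
    _ ≤ (2 * (X.card * (KS k V (insert v T)).card)) * (V.card - T.card) :=
        Nat.mul_le_mul_right _ h2
    _ = 2 * X.card * ((KS k V (insert v T)).card * (V.card - T.card)) := by ring
    _ ≤ 2 * X.card * (k * (KS k V T).card) := Nat.mul_le_mul_left _ h1
    _ = (KS k V T).card * (2 * (k * X.card)) := by ring

/-- **Row hm:AVO.** -/
theorem AVO (hKSV : KSV_stmt) : AVO_stmt := by
  intro M k V T R X hT hR hX h4 hsp
  rcases X.eq_empty_or_nonempty with hX0 | hne
  · rw [hX0]
    simp only [card_empty, Nat.cast_zero]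
    positivity
  have hcov : X ⊆ (flt X fun Q => Disjoint Q R) ∪ R.biUnion fun v => Xt X (insert v T) := by
    intro Q hQ
    rw [mem_union]
    by_cases hd : Disjoint Q R
    · exact Or.inl (mem_flt.2 ⟨hQ, hd⟩)
    · right
      rw [not_disjoint_iff] at hd
      obtain ⟨v, hvQ, hvR⟩ := hd
      rw [mem_biUnion]
      exact ⟨v, hvR, mem_Xt.2 ⟨hQ, insert_subset hvQ (mem_KS.1 (hX hQ)).2.2⟩⟩
  have h5 : X.card ≤ (flt X fun Q => Disjoint Q R).card + ∑ v ∈ R, (Xt X (insert v T)).card :=
    (card_le_card hcov).trans ((card_union_le _ _).trans (Nat.add_le_add_left card_biUnion_le _))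
  have h6 : 2 * ∑ v ∈ R, (Xt X (insert v T)).card ≤ X.card := by
    rcases R.eq_empty_or_nonempty with hR0 | hRne
    · rw [hR0]
      simp
    · have hn : 0 < V.card - T.card := by
        have h7 : 0 < (V \ T).card := card_pos.2 (hRne.mono hR)
        rwa [card_sdiff_of_subset hT] at h7
      refine Nat.le_of_mul_le_mul_left (c := V.card - T.card) ?_ hn
      calc (V.card - T.card) * (2 * ∑ v ∈ R, (Xt X (insert v T)).card)
          = 2 * ∑ v ∈ R, (Xt X (insert v T)).card * (V.card - T.card) := by
            rw [← sum_mul]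
            ring
        _ ≤ 2 * ∑ _v ∈ R, 2 * (k * X.card) := by
            refine Nat.mul_le_mul_left _ (sum_le_sum fun v hv => ?_)
            exact AVO_one hKSV V T X hT hX hne v (hR hv) (hsp v (hR hv))
        _ = (4 * k * R.card) * X.card := by
            rw [sum_const, smul_eq_mul]
            ring
        _ ≤ (V.card - T.card) * X.card := Nat.mul_le_mul_right _ h4
  have h8 : X.card ≤ 2 * (flt X fun Q => Disjoint Q R).card := by omega
  exact_mod_cast h8

end Pool.Agent.HM
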